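import Pool.Agent.Helper33.SFL.Lcl
import Pool.Agent.Helper13.SF.Shift

/-!
# SFL: labellings which are solutions

The chart is `φ v = pt (un i0) (un i1) v` for `|v.1| + |v.2| ≤ 4` (a vertex of the ball of radius `4`: append unit steps), the root otherwise.
-/

set_option autoImplicit false

namespace SFL

open EB BM NI

theorem un_dir {d : ℕ} (i : Fin d) (s : Bool) : Un (sn s • un i : Gd d) := by
  cases s
  · exact ⟨i, Or.inr (by simp [sn])⟩
  · exact ⟨i, Or.inl (by simp [sn])⟩

theorem pt_dc {d : ℕ} (i0 i1 : Fin d) (v : ℤ × ℤ) (b s : Bool) :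
    pt (un i0) (un i1) (v + dc b s) = sn s • un (if b then i1 else i0) + pt (un i0) (un i1) v := by
  unfold pt dc
  cases b
  · simp only [Bool.false_eq_true, if_false, Prod.fst_add, Prod.snd_add, add_zero, add_smul]
    abel
  · simp only [if_true, Prod.fst_add, Prod.snd_add, add_zero, add_smul]
    abel

theorem pt_zero {d : ℕ} (e f : Gd d) : pt e f 0 = 0 := by
  unfold pt
  simp

theorem mem_ball_pt {d : ℕ} (i0 i1 : Fin d) (n : ℕ) : ∀ v : ℤ × ℤ, |v.1| + |v.2| ≤ n →
    pt (un i0) (un i1) v ∈ ball (grid d) n (0 : Gd d) := by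
  induction n with
  | zero =>
    intro v hv
    have h1 := abs_nonneg v.1
    have h2 := abs_nonneg v.2
    push_cast at hv
    have h3 : v.1 = 0 := abs_eq_zero.1 (by omega)
    have h4 : v.2 = 0 := abs_eq_zero.1 (by omega)
    have h5 : v = 0 := Prod.ext h3 h4
    rw [h5, pt_zero]
    exact self_mem_ball _ _ _
  | succ n ih =>
    intro v hv
    push_cast at hv
    have key : (v = 0) ∨ ∃ b s, |(v - dc b s).1| + |(v - dc b s).2| ≤ (n : ℤ) := by
      rcases lt_trichotomy v.1 0 with h | h | h
      · right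
        refine ⟨false, false, ?_⟩
        simp only [dc, sn, Bool.false_eq_true, if_false, Prod.fst_sub, Prod.snd_sub, sub_zero]
        rw [abs_of_neg h] at hv
        rw [abs_of_nonpos (by omega)]
        omega
      · rcases lt_trichotomy v.2 0 with h' | h' | h'
        · right
          refine ⟨true, false, ?_⟩
          simp only [dc, sn, Bool.false_eq_true, if_false, if_true, Prod.fst_sub, Prod.snd_sub, sub_zero]
          rw [abs_of_neg h'] at hv
          rw [abs_of_nonpos (show v.2 - -1 ≤ 0 by omega)]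
          omega
        · left
          exact Prod.ext h h'
        · right
          refine ⟨true, true, ?_⟩
          simp only [dc, sn, if_true, Prod.fst_sub, Prod.snd_sub, sub_zero]
          rw [abs_of_pos h'] at hv
          rw [abs_of_nonneg (show 0 ≤ v.2 - 1 by omega)]
          omega
      · right
        refine ⟨false, true, ?_⟩
        simp only [dc, sn, Bool.false_eq_true, if_false, if_true, Prod.fst_sub, Prod.snd_sub, sub_zero]
        rw [abs_of_pos h] at hv
        rw [abs_of_nonneg (by omega)]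
        omega
    rcases key with h | ⟨b, s, h⟩
    · rw [h, pt_zero]
      exact self_mem_ball _ _ _
    · obtain ⟨p, hp⟩ := ih _ h
      have e := pt_dc i0 i1 (v - dc b s) b s
      rw [sub_add_cancel] at e
      have hadj : (grid d).Adj (pt (un i0) (un i1) (v - dc b s)) (pt (un i0) (un i1) v) := by
        rw [adj_iff_un, e, add_sub_cancel_right]
        exact un_dir _ s
      exact ⟨p.concat hadj, by rw [SimpleGraph.Walk.length_concat]; omega⟩

open Classical in
/-- the chart -/
noncomputable def cht {d : ℕ} (i0 i1 : Fin d) (v : ℤ × ℤ) : ball (grid d) 4 (0 : Gd d) :=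
  if h : |v.1| + |v.2| ≤ 4 then ⟨pt (un i0) (un i1) v, mem_ball_pt i0 i1 4 v h⟩
  else ⟨0, self_mem_ball _ _ _⟩

theorem cht_val {d : ℕ} (i0 i1 : Fin d) {v : ℤ × ℤ} (h : |v.1| + |v.2| ≤ 4) :
    (cht i0 i1 v).1 = pt (un i0) (un i1) v := by
  unfold cht
  rw [dif_pos h]

theorem dc_abs (v : ℤ × ℤ) (b s : Bool) (h : |v.1| + |v.2| ≤ 3) :
    |(v + dc b s).1| + |(v + dc b s).2| ≤ 4 := by
  have h1 := abs_add_le v.1 (dc b s).1
  have h2 := abs_add_le v.2 (dc b s).2
  have h3 : |(dc b s).1| + |(dc b s).2| ≤ 1 := by cases b <;> cases s <;> simp [dc, sn]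
  rw [Prod.fst_add, Prod.snd_add]
  omega

/-- opposite neighbours of the root -/
theorem opp_ball {d K : ℕ} (l : ball (grid d) 4 (0 : Gd d) → LabS K)
    (u w : ball (grid d) 4 (0 : Gd d)) (hu : Un u.1) (h : w.1 = -u.1) :
    Opp (ballRG (grid d) 4 0 l) u w := by
  obtain ⟨i, hi⟩ : ∃ i, u.1 i ≠ 0 := by
    by_contra hc
    push Not at hc
    exact hu.ne_zero (funext hc)
  refine ⟨fun e => ?_, fun z hz1 hz2 => ?_⟩
  · rw [← e] at h
    have := congrFun h i
    rw [Pi.neg_apply] at this
    omega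
  · have a1 : Un (z.1 - u.1) := by
      rw [← adj_iff_un]
      exact hz1
    have a2 : Un (z.1 - w.1) := by
      rw [← adj_iff_un]
      exact hz2
    rw [h] at a2
    have b1 := a1.bd i
    have b2 := a2.bd i
    have b3 := hu.bd i
    simp only [Pi.sub_apply, Pi.neg_apply] at b1 b2
    have h5 : (z.1 - u.1) i = (-u.1) i := by
      simp only [Pi.sub_apply, Pi.neg_apply]
      omega
    have h6 := a1.eq_of hu.neg h5 (by rw [h5, Pi.neg_apply]; omega)
    apply Subtype.ext
    show z.1 = 0
    have : z.1 = (z.1 - u.1) + u.1 := by abel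
    rw [this, h6, neg_add_cancel]

theorem dir_inj {d : ℕ} {i0 i1 : Fin d} (hi : i0 ≠ i1) {b s b' s' : Bool}
    (h : (sn s • un (if b then i1 else i0) : Gd d) = sn s' • un (if b' then i1 else i0)) :
    b = b' ∧ s = s' := by
  have h0 := congrFun h i0
  have h1 := congrFun h i1
  simp only [Pi.smul_apply, smul_eq_mul] at h0 h1
  have e1 : (un i1 : Gd d) i0 = 0 := un_off hi
  have e2 : (un i0 : Gd d) i1 = 0 := un_off hi.symm
  have e3 := un_self i0
  have e4 := un_self i1
  cases b <;> cases b' <;> cases s <;> cases s' <;>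
    simp [sn, e1, e2, e3, e4] at h0 h1 ⊢

theorem allowed_of {d K : ℕ} (y : Gd d → LabS K) (i0 i1 : Fin d) (hi : i0 ≠ i1)
    (hc : ∀ g h, Un g → Un h → (y g).1 = (y h).1 → g = h)
    (hp : ∀ g b s, (y g).2.1 b s = (y (sn s • un (if b then i1 else i0) + g)).1)
    (hl : SF.Rule (fun u => (y (pt (un i0) (un i1) u)).2.2) 0) :
    Allowed d (lclS K) fun b => y b.1 := by
  refine ⟨?_, ?_, cht i0 i1, ?_⟩
  · intro u w hu hw huw
    exact Subtype.ext (hc u.1 w.1 ((adj_zero _).1 hu) ((adj_zero _).1 hw) huw)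
  · intro b s b' s' h
    change (y 0).2.1 b s = (y 0).2.1 b' s' at h
    rw [hp, hp, add_zero, add_zero] at h
    exact dir_inj hi (hc _ _ (un_dir _ s) (un_dir _ s') h)
  · have hv4 : ∀ v : ℤ × ℤ, |v.1| + |v.2| ≤ 3 → |v.1| + |v.2| ≤ 4 := fun v hv => by omega
    refine ⟨?_, ?_, ?_, ?_, ?_⟩
    · apply Subtype.ext
      rw [cht_val i0 i1 (by simp), pt_zero]
      rfl
    · intro v b s hv
      show (grid d).Adj (cht i0 i1 v).1 (cht i0 i1 (v + dc b s)).1
      rw [cht_val i0 i1 (hv4 v hv), cht_val i0 i1 (dc_abs v b s hv), adj_iff_un, pt_dc,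
        add_sub_cancel_right]
      exact un_dir _ s
    · intro v b s hv
      show (y (cht i0 i1 (v + dc b s)).1).1 = (y (cht i0 i1 v).1).2.1 b s
      rw [cht_val i0 i1 (hv4 v hv), cht_val i0 i1 (dc_abs v b s hv), pt_dc, hp]
    · intro b
      have h1 : ∀ s, (cht i0 i1 (dc b s)).1 = sn s • un (if b then i1 else i0) := by
        intro s
        have h2 := pt_dc i0 i1 0 b s
        rw [zero_add, pt_zero, add_zero] at h2
        have h3 := dc_abs 0 b s (by simp)
        rw [zero_add] at h3
        rw [cht_val i0 i1 h3, h2]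
      refine opp_ball _ _ _ ?_ ?_
      · rw [h1]
        exact un_dir _ _
      · rw [h1, h1]
        simp [sn]
    · refine SF.rule_congr3 (fun p hp3 => ?_) hl
      show (y (pt (un i0) (un i1) p)).2.2 = (y (cht i0 i1 p).1).2.2
      rw [cht_val i0 i1 (hv4 p (by simpa using hp3))]

end SFL
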