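import Pool.Agent.Helper33.SFL.Lcl
import Pool.Agent.Helper13.SF.Shift

/-!
# SFL: reading a solution on the grid
-/

set_option autoImplicit false

namespace SFL

open EB BM

variable {d K : ℕ} {y : Gd d → LabS K}

theorem mem1 {e : Gd d} (h : Un e) : e ∈ ball (grid d) 4 (0 : Gd d) :=
  ⟨SimpleGraph.Walk.cons ((adj_zero e).2 h) SimpleGraph.Walk.nil, by simp⟩

theorem mem2 {e f : Gd d} (h : Un e) (h' : Un f) : e + f ∈ ball (grid d) 4 (0 : Gd d) :=
  ⟨SimpleGraph.Walk.cons ((adj_zero e).2 h) (SimpleGraph.Walk.cons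
    ((adj_iff_un e (e + f)).2 (by rwa [add_sub_cancel_left])) SimpleGraph.Walk.nil), by simp⟩

/-- a chart of the grid at `g` -/
structure Ps (y : Gd d → LabS K) (g : Gd d) (ψ : ℤ × ℤ → Gd d) : Prop where
  zero : ψ 0 = 0
  un : ∀ v b s, |v.1| + |v.2| ≤ 3 → Un (ψ (v + dc b s) - ψ v)
  col : ∀ v b s, |v.1| + |v.2| ≤ 3 → (y (ψ (v + dc b s) + g)).1 = (y (ψ v + g)).2.1 b s
  opp : ∀ b, ψ (dc b true) + ψ (dc b false) = 0
  rule : SF.Rule (fun u => (y (ψ u + g)).2.2) 0

theorem dc_add (b s : Bool) : dc b s + dc b (!s) = 0 := by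
  cases b <;> cases s <;> simp [dc, sn]

theorem ps_exists (hy : ∀ g : Gd d, Allowed d (lclS K) fun b => y (b.1 + g)) (g : Gd d) :
    ∃ ψ, Ps y g ψ := by
  obtain ⟨-, -, φ, h3⟩ := hy g
  have h0 : (φ 0).1 = 0 := congrArg Subtype.val h3.root
  have hz : |(0 : ℤ × ℤ).1| + |(0 : ℤ × ℤ).2| ≤ 3 := by simp
  have hu : ∀ v b s, |v.1| + |v.2| ≤ 3 → Un ((φ (v + dc b s)).1 - (φ v).1) := fun v b s hv =>
    (adj_iff_un _ _).1 (h3.adj v b s hv)
  refine ⟨fun v => (φ v).1, h0, hu, fun v b s hv => h3.ptr v b s hv, fun b => ?_, h3.rule⟩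
  obtain ⟨-, h4⟩ := h3.opp b
  have h5 : ∀ s, Un (φ (dc b s)).1 := by
    intro s
    have := hu 0 b s hz
    rwa [h0, sub_zero, zero_add] at this
  exact congrArg Subtype.val (h4 ⟨(φ (dc b true)).1 + (φ (dc b false)).1, mem2 (h5 true) (h5 false)⟩
    (show (grid d).Adj (φ (dc b true)).1 ((φ (dc b true)).1 + (φ (dc b false)).1) from by
      rw [adj_iff_un, add_sub_cancel_left]
      exact h5 false)
    (show (grid d).Adj (φ (dc b false)).1 ((φ (dc b true)).1 + (φ (dc b false)).1) from by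
      rw [adj_iff_un, add_sub_cancel_right]
      exact h5 true))

theorem col_uniq (hy : ∀ g : Gd d, Allowed d (lclS K) fun b => y (b.1 + g)) {g e f : Gd d}
    (he : Un e) (hf : Un f) (h : (y (e + g)).1 = (y (f + g)).1) : e = f := by
  obtain ⟨h1, -, -⟩ := hy g
  exact congrArg Subtype.val
    (h1 ⟨e, mem1 he⟩ ⟨f, mem1 hf⟩ ((adj_zero e).2 he) ((adj_zero f).2 hf) h)

theorem ptr_inj (hy : ∀ g : Gd d, Allowed d (lclS K) fun b => y (b.1 + g)) {g : Gd d}
    {b s b' s' : Bool} (h : (y g).2.1 b s = (y g).2.1 b' s') : b = b' ∧ s = s' := by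
  obtain ⟨-, h2, -⟩ := hy g
  refine h2 b s b' s' ?_
  show (y (0 + g)).2.1 b s = (y (0 + g)).2.1 b' s'
  rw [zero_add]
  exact h

/-- `e` is the direction `(b, s)` at `g` -/
def IsD (y : Gd d → LabS K) (g : Gd d) (b s : Bool) (e : Gd d) : Prop :=
  Un e ∧ (y (e + g)).1 = (y g).2.1 b s

section

variable (hy : ∀ g : Gd d, Allowed d (lclS K) fun b => y (b.1 + g))

include hy

theorem IsD.uniq {g : Gd d} {b s : Bool} {e e' : Gd d} (h : IsD y g b s e) (h' : IsD y g b s e') :
    e = e' := col_uniq hy h.1 h'.1 (h.2.trans h'.2.symm)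

theorem IsD.inj {g : Gd d} {b s b' s' : Bool} {e : Gd d} (h : IsD y g b s e)
    (h' : IsD y g b' s' e) : b = b' ∧ s = s' := ptr_inj hy (h.2.symm.trans h'.2)

omit hy in
theorem Ps.isD {g : Gd d} {ψ : ℤ × ℤ → Gd d} (h : Ps y g ψ) {v : ℤ × ℤ} (b s : Bool)
    (hv : |v.1| + |v.2| ≤ 3) : IsD y (ψ v + g) b s (ψ (v + dc b s) - ψ v) := by
  refine ⟨h.un v b s hv, ?_⟩
  rw [← h.col v b s hv]
  congr 2
  abel

omit hy in
theorem Ps.isD0 {g : Gd d} {ψ : ℤ × ℤ → Gd d} (h : Ps y g ψ) (b s : Bool) :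
    IsD y g b s (ψ (dc b s)) := by
  have := h.isD (v := 0) b s (by simp)
  rwa [h.zero, sub_zero, zero_add, zero_add] at this

theorem IsD.opp {g : Gd d} {b s : Bool} {e : Gd d} (h : IsD y g b s e) : IsD y g b (!s) (-e) := by
  obtain ⟨ψ, hψ⟩ := ps_exists hy g
  have h1 := h.uniq hy (hψ.isD0 b s)
  have h2 : ψ (dc b (!s)) = -e := by
    rw [h1]
    have := hψ.opp b
    cases s
    · exact eq_neg_of_add_eq_zero_left this
    · exact eq_neg_of_add_eq_zero_right this
  rw [← h2]
  exact hψ.isD0 b (!s)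

omit hy in
theorem dc_bd (b s : Bool) : |(dc b s).1| + |(dc b s).2| = 1 := by
  cases b <;> cases s <;> simp [dc, sn]

theorem IsD.back {g : Gd d} {b s : Bool} {e : Gd d} (h : IsD y g b s e) :
    IsD y (e + g) b (!s) (-e) := by
  obtain ⟨ψ, hψ⟩ := ps_exists hy g
  have h1 := h.uniq hy (hψ.isD0 b s)
  have h2 := hψ.isD (v := dc b s) b (!s) (by rw [dc_bd]; norm_num)
  rw [dc_add, hψ.zero, ← h1, zero_sub] at h2
  exact h2

theorem IsD.perp {g : Gd d} {b s b' s' : Bool} {e f : Gd d} (hb : b ≠ b') (h : IsD y g b s e)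
    (h' : IsD y g b' s' f) : IsD y (e + g) b' s' f := by
  obtain ⟨ψ, hψ⟩ := ps_exists hy g
  have h1 := h.uniq hy (hψ.isD0 b s)
  have h1' := h'.uniq hy (hψ.isD0 b' s')
  have h2 := hψ.isD (v := dc b s) b' s' (by rw [dc_bd]; norm_num)
  have h2' := hψ.isD (v := dc b' s') b s (by rw [dc_bd]; norm_num)
  rw [← h1] at h2
  rw [← h1', add_comm (dc b' s') (dc b s)] at h2'
  obtain ⟨w, hw⟩ : ∃ w, w = ψ (dc b s + dc b' s') := ⟨_, rfl⟩
  rw [← hw] at h2 h2'
  have h3 : e ≠ f := fun h3 => hb ((h.inj hy (h3 ▸ h')).1)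
  have h4 : e ≠ -f := fun h4 => by
    have := h'.opp hy
    rw [← h4] at this
    exact hb (h.inj hy this).1
  obtain ⟨i, hi⟩ : ∃ i, e i ≠ 0 := by
    by_contra hc
    push Not at hc
    exact h.1.ne_zero (funext hc)
  have b1 := h.1.bd i
  have b2 := h'.1.bd i
  have b3 := h2.1.bd i
  have b4 := h2'.1.bd i
  simp only [Pi.sub_apply] at b3 b4
  have h5 : f i = 0 := by
    by_contra hf
    have : f i = e i ∨ f i = -e i := by omega
    rcases this with h6 | h6
    · exact h3 (h.1.eq_of h'.1 h6.symm hi)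
    · refine h4 (h.1.eq_of h'.1.neg ?_ hi)
      rw [Pi.neg_apply]
      omega
  by_cases h6 : (w - f) i = e i
  · have h7 := h2'.1.eq_of h.1 h6 (by rw [h6]; exact hi)
    have h8 : w - e = f := by
      rw [sub_eq_iff_eq_add] at h7 ⊢
      rw [h7, add_comm]
    rw [h8] at h2
    exact h2
  · exfalso
    rw [Pi.sub_apply] at h6
    have h7 : (w - e) i = (-e) i := by
      rw [Pi.sub_apply, Pi.neg_apply]
      omega
    have h8 := h2.1.eq_of h.1.neg h7 (by rw [h7, Pi.neg_apply]; omega)
    rw [h8] at h2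
    exact hb ((h.back hy).inj hy h2).1

theorem IsD.step {g : Gd d} {b s b' s' : Bool} {e f : Gd d} (h : IsD y g b s e)
    (h' : IsD y g b' s' f) : IsD y (e + g) b' s' f := by
  by_cases hb : b = b'
  · subst hb
    by_cases hs : s' = s
    · subst hs
      rw [← h.uniq hy h']
      have := (h.back hy).opp hy
      rwa [Bool.not_not, neg_neg] at this
    · have hs' : s' = !s := by
        cases s <;> cases s' <;> simp_all
      subst hs'
      rw [h'.uniq hy (h.opp hy)]
      exact h.back hy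
  · exact h.perp hy hb h'

end

theorem pt_add (e f : Gd d) (u v : ℤ × ℤ) : pt e f (u + v) = pt e f u + pt e f v := by
  unfold pt
  rw [Prod.fst_add, Prod.snd_add, add_smul, add_smul]
  abel

theorem pt_zero (e f : Gd d) : pt e f 0 = 0 := by
  simp [pt]

/-- all directions at `g` -/
def AD (y : Gd d → LabS K) (g e f : Gd d) : Prop := ∀ b s, IsD y g b s (pt e f (dc b s))

theorem dr_iff (hy : ∀ g : Gd d, Allowed d (lclS K) fun b => y (b.1 + g)) {g e f : Gd d} :
    Dr y g e f ↔ AD y g e f := by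
  constructor
  · intro h b s
    have h1 : IsD y g false true e := ⟨h.ue, h.p1⟩
    have h2 : IsD y g true true f := ⟨h.uf, h.p2⟩
    cases b <;> cases s
    · have := h1.opp hy
      have e1 : pt e f (dc false false) = -e := by simp [pt, dc, sn]
      rw [e1]
      exact this
    · have e1 : pt e f (dc false true) = e := by simp [pt, dc, sn]
      rw [e1]
      exact h1
    · have := h2.opp hy
      have e1 : pt e f (dc true false) = -f := by simp [pt, dc, sn]
      rw [e1]
      exact this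
    · have e1 : pt e f (dc true true) = f := by simp [pt, dc, sn]
      rw [e1]
      exact h2
  · intro h
    have e1 : pt e f (dc false true) = e := by simp [pt, dc, sn]
    have e2 : pt e f (dc true true) = f := by simp [pt, dc, sn]
    have h1 := h false true
    have h2 := h true true
    rw [e1] at h1
    rw [e2] at h2
    exact ⟨h1.1, h2.1, h1.2, h2.2⟩

theorem dr_exists (hy : ∀ g : Gd d, Allowed d (lclS K) fun b => y (b.1 + g)) (g : Gd d) :
    ∃ e f, Dr y g e f := by
  obtain ⟨ψ, hψ⟩ := ps_exists hy g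
  have h1 := hψ.isD0 false true
  have h2 := hψ.isD0 true true
  exact ⟨_, _, h1.1, h2.1, h1.2, h2.2⟩

theorem AD.step (hy : ∀ g : Gd d, Allowed d (lclS K) fun b => y (b.1 + g)) {g e f : Gd d}
    (h : AD y g e f) (b s : Bool) : AD y (pt e f (dc b s) + g) e f := fun b' s' =>
  (h b s).step hy (h b' s')

theorem dr_step (hy : ∀ g : Gd d, Allowed d (lclS K) fun b => y (b.1 + g)) {g e f : Gd d}
    (h : Dr y g e f) : Dr y (e + g) e f := by
  have h1 := ((dr_iff hy).1 h).step hy false true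
  have e1 : pt e f (dc false true) = e := by simp [pt, dc, sn]
  rw [e1] at h1
  exact (dr_iff hy).2 h1

theorem AD.all (hy : ∀ g : Gd d, Allowed d (lclS K) fun b => y (b.1 + g)) {g e f : Gd d}
    (h : AD y g e f) (v : ℤ × ℤ) : AD y (pt e f v + g) e f := by
  have h1 : ∀ n : ℤ, AD y (pt e f (n, 0) + g) e f := by
    intro n
    induction n using Int.induction_on with
    | zero =>
      have : pt e f (0, 0) = 0 := pt_zero e f
      rw [this, zero_add]
      exact h
    | succ n ih =>
      have := ih.step hy false true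
      rw [← add_assoc, ← pt_add] at this
      have e1 : dc false true + ((n : ℤ), (0 : ℤ)) = ((n : ℤ) + 1, 0) := by
        simp [dc, sn, add_comm]
      rwa [e1] at this
    | pred n ih =>
      have := ih.step hy false false
      rw [← add_assoc, ← pt_add] at this
      have e1 : dc false false + (-(n : ℤ), (0 : ℤ)) = (-(n : ℤ) - 1, 0) := by
        simp [dc, sn, sub_eq_add_neg, add_comm]
      rwa [e1] at this
  obtain ⟨a, c⟩ := v
  induction c using Int.induction_on with
  | zero => exact h1 a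
  | succ n ih =>
    have := ih.step hy true true
    rw [← add_assoc, ← pt_add] at this
    have e1 : dc true true + (a, (n : ℤ)) = (a, (n : ℤ) + 1) := by
      simp [dc, sn, add_comm]
    rwa [e1] at this
  | pred n ih =>
    have := ih.step hy true false
    rw [← add_assoc, ← pt_add] at this
    have e1 : dc true false + (a, -(n : ℤ)) = (a, -(n : ℤ) - 1) := by
      simp [dc, sn, sub_eq_add_neg, add_comm]
    rwa [e1] at this

theorem exists_pred {u : ℤ × ℤ} {n : ℕ} (hn : |u.1| + |u.2| = n + 1) :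
    ∃ v b s, u = v + dc b s ∧ |v.1| + |v.2| = n := by
  obtain ⟨a, c⟩ := u
  simp only at hn
  rcases lt_trichotomy a 0 with h | h | h
  · refine ⟨(a + 1, c), false, false, ?_, ?_⟩
    · simp [dc, sn]
    · simp only
      rw [abs_of_nonpos (by omega)]
      rw [abs_of_neg h] at hn
      omega
  · rcases lt_trichotomy c 0 with h' | h' | h'
    · refine ⟨(a, c + 1), true, false, ?_, ?_⟩
      · simp [dc, sn]
      · simp only
        rw [abs_of_nonpos (a := c + 1) (by omega)]
        rw [abs_of_neg h'] at hn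
        omega
    · subst h h'
      simp at hn
      omega
    · refine ⟨(a, c - 1), true, true, ?_, ?_⟩
      · simp [dc, sn]
      · simp only
        rw [abs_of_nonneg (a := c - 1) (by omega)]
        rw [abs_of_pos h'] at hn
        omega
  · refine ⟨(a - 1, c), false, true, ?_, ?_⟩
    · simp [dc, sn]
    · simp only
      rw [abs_of_nonneg (a := a - 1) (by omega)]
      rw [abs_of_pos h] at hn
      omega

theorem Ps.eq_pt (hy : ∀ g : Gd d, Allowed d (lclS K) fun b => y (b.1 + g)) {g e f : Gd d}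
    {ψ : ℤ × ℤ → Gd d} (hψ : Ps y g ψ) (h : AD y g e f) (n : ℕ) (hn : n ≤ 4) :
    ∀ u : ℤ × ℤ, |u.1| + |u.2| = n → ψ u = pt e f u := by
  induction n with
  | zero =>
    intro u hu
    have h1 : u.1 = 0 := by
      have := abs_nonneg u.1
      have := abs_nonneg u.2
      exact abs_eq_zero.1 (by push_cast at hu; omega)
    have h2 : u.2 = 0 := by
      have := abs_nonneg u.1
      have := abs_nonneg u.2
      exact abs_eq_zero.1 (by push_cast at hu; omega)
    have h3 : u = 0 := Prod.ext h1 h2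
    rw [h3, hψ.zero, pt_zero]
  | succ n ih =>
    intro u hu
    obtain ⟨v, b, s, rfl, hv⟩ := exists_pred (by push_cast at hu; exact hu)
    have h1 := ih (by omega) v hv
    have h2 := hψ.isD b s (v := v) (by rw [hv]; exact_mod_cast (by omega : n ≤ 3))
    have h3 := h.all hy v b s
    rw [h1] at h2
    have h4 := h2.uniq hy h3
    rw [pt_add, ← h4]
    abel

theorem dr_rule (hy : ∀ g : Gd d, Allowed d (lclS K) fun b => y (b.1 + g)) {g e f : Gd d}
    (h : Dr y g e f) (v : ℤ × ℤ) : SF.Rule (fun u => (y (pt e f u + g)).2.2) v := by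
  have h1 := ((dr_iff hy).1 h).all hy v
  obtain ⟨ψ, hψ⟩ := ps_exists hy (pt e f v + g)
  have h2 : SF.Rule (fun u => (y (pt e f u + (pt e f v + g))).2.2) 0 := by
    refine SF.rule_congr (fun p hp => ?_) hψ.rule
    have h3 : |p.1| + |p.2| ≤ 4 := by
      unfold SF.ds at hp
      rw [max_le_iff] at hp
      have h4 := hp.1
      have h5 := hp.2
      simp only [Prod.fst_zero, Prod.snd_zero, zero_sub, abs_neg] at h4 h5
      omega
    obtain ⟨n, hn⟩ := Int.eq_ofNat_of_zero_le (a := |p.1| + |p.2|) (by positivity)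
    rw [hψ.eq_pt hy h1 n (by omega) p hn]
  have h3 := SF.rule_shift (w := v) (v := v) (by rw [sub_self]; exact h2)
  have h4 : (fun q : ℤ × ℤ => (y (pt e f (q - v) + (pt e f v + g))).2.2) =
      fun u => (y (pt e f u + g)).2.2 := by
    funext q
    rw [← add_assoc, ← pt_add, sub_add_cancel]
  rw [h4] at h3
  exact h3

end SFL
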