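import Pool.Agent.Helper27.EB.LCLDefs

/-!
# SFL: solutions for general actions
-/

set_option autoImplicit false

namespace SFL

open EB MeasureTheory

/-- A Baire-measurable solution for an action: a Borel solution on an invariant comeagre Borel set. -/
def BaireSolA {d : ℕ} {X S : Type} [MeasurableSpace X] [TopologicalSpace X] (a : FreeAct d X)
    (L : LCL S) : Prop :=
  ∃ C, MeasurableSet C ∧ Inv a C ∧ C ∈ residual X ∧ BorelSolOn a L C

/-- A solution almost everywhere: a Borel solution on an invariant Borel set which is conull for `μ`. -/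
def MeasSolA {d : ℕ} {X S : Type} [MeasurableSpace X] (a : FreeAct d X) (μ : Measure X)
    (L : LCL S) : Prop :=
  ∃ C, MeasurableSet C ∧ Inv a C ∧ μ Cᶜ = 0 ∧ BorelSolOn a L C

end SFL
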