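import Pool.Agent.Helper33.SFL.DecE
import Pool.Agent.Helper33.SFL.SolA
import Pool.Agent.Helper13.SF.Fin
import Pool.Agent.Helper27.EB.Final
import Pool.Agent.Helper27.EB.Greedy
import Pool.Agent.Helper27.EB.Col
import Pool.Agent.Helper27.EB.BallIso
import Pool.Agent.Helper27.EB.Bern

/-!
# SFL: the generic solution
-/

set_option autoImplicit false

namespace SFL

open EB BM NI


theorem card_nb {d : ℕ} (F : Finset (Gd d)) (h : ∀ g ∈ F, nb 2 g) : F.card ≤ 5 ^ d := by
  have h1 : F ⊆ Finset.Icc (fun _ => (-2 : ℤ)) (fun _ => (2 : ℤ)) := by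
    intro g hg
    rw [Finset.mem_Icc]
    exact ⟨fun i => (abs_le.1 (h g hg i)).1, fun i => (abs_le.1 (h g hg i)).2⟩
  refine (Finset.card_le_card h1).trans ?_
  rw [Pi.card_Icc]
  simp

theorem Un.nb_one {d : ℕ} {g : Gd d} (h : Un g) : nb 1 g := fun i => by
  have := h.bd i
  exact abs_le.2 ⟨by push_cast; omega, by push_cast; omega⟩

theorem un_eq {d : ℕ} (i : Fin d) : (un i : Gd d) = Pi.single i 1 := by
  funext k
  by_cases h : k = i
  · subst h
    rw [un_self, Pi.single_eq_same]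
  · rw [un_off h, Pi.single_eq_of_ne h]

theorem sol_of_plane {d : ℕ} {X : Type} [MeasurableSpace X] [StandardBorelSpace X]
    (a : FreeAct d X) {i0 i1 : Fin d} (hi : i0 ≠ i1) (C : Set X) (hC : Inv a C)
    (f : X → SF.Lab) (hf : Ms f)
    (hR : ∀ x ∈ C, ∀ v : ℤ × ℤ, SF.Rule (fun u => f (a.T (SF.pl i0 i1 u) x)) v) :
    BorelSolOn a (lclS (5 ^ d + 1)) C := by
  obtain ⟨c, hc, hc'⟩ := window_col a 2
  obtain ⟨κ, hκ, hκ'⟩ := exists_greedy a 2 (5 ^ d) c hc hc' Set.univ MeasurableSet.univ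
    (fun x _ F hF => card_nb F fun g hg => (hF g hg).1)
  have hmG : Ms fun x => (κ x, (fun b s => κ (a.T (sn s • un (if b then i1 else i0)) x) :
      Bool → Bool → Fin (5 ^ d + 1)), f x) := by
    refine hκ.pair (Ms.pair ?_ hf)
    exact Ms.pi fun b => Ms.pi fun s => hκ.precomp (a.meas _)
  refine ⟨fun x => (κ x.1, (fun b s => κ (a.T (sn s • un (if b then i1 else i0)) x.1)), f x.1),
    fun s => measurable_subtype_coe (hmG s), ?_⟩
  rw [sol_iff a _ C hC]
  intro x
  refine allowed_of (fun g => (κ (a.T g x.1),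
    (fun b s => κ (a.T (sn s • un (if b then i1 else i0)) (a.T g x.1))), f (a.T g x.1)))
    i0 i1 hi ?_ ?_ ?_
  · intro g h hg hh hgh
    by_contra hne
    refine hκ' (a.T h x.1) trivial (g - h) ?_ (sub_ne_zero.2 hne) trivial ?_
    · intro i
      have h1 := hg.bd i
      have h2 := hh.bd i
      rw [Pi.sub_apply]
      exact abs_le.2 ⟨by push_cast; omega, by push_cast; omega⟩
    · rw [← a.add, sub_add_cancel]
      exact hgh
  · intro g b s
    dsimp only
    rw [a.add]
  · have h := hR x.1 x.2 0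
    unfold SF.pl at h
    unfold pt
    rw [un_eq, un_eq]
    exact h

theorem baire_of_plane {d : ℕ} (hd : 2 ≤ d) {X : Type} [MeasurableSpace X] [StandardBorelSpace X]
    [TopologicalSpace X] (a : FreeAct d X)
    (h : ∀ i j : Fin d, i ≠ j → ∃ C : Set X, MeasurableSet C ∧ Inv a C ∧ C ∈ residual X ∧
      ∃ f : X → SF.Lab, Ms f ∧
        ∀ x ∈ C, ∀ v : ℤ × ℤ, SF.Rule (fun u => f (a.T (SF.pl i j u) x)) v) :
    BaireSolA a (lclS (5 ^ d + 1)) := by
  have hne : (⟨0, by omega⟩ : Fin d) ≠ ⟨1, by omega⟩ := by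
    intro h
    have := congrArg Fin.val h
    simp at this
  obtain ⟨C, h1, h2, h3, f, h4, h5⟩ := h _ _ hne
  exact ⟨C, h1, h2, h3, sol_of_plane a hne C h2 f h4 h5⟩

theorem FP_gdelta (d : ℕ) : IsGδ (FP d) := by
  have h1 : FP d = ⋂ g : Gd d, ⋂ _ : g ≠ 0, {x : Om d | sh g x ≠ x} := by
    ext x
    simp only [Set.mem_iInter]
    constructor
    · intro hx g hg h
      exact hg (hx g h)
    · intro hx g h
      by_contra hg
      exact hx g hg h
  rw [h1]
  refine IsGδ.iInter fun g => IsGδ.iInter_of_isOpen fun _ => ?_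
  have hc : Continuous (sh g : Om d → Om d) := continuous_pi fun h => continuous_apply (h + g)
  exact isOpen_ne_fun hc continuous_id

instance (d : ℕ) : BaireSpace (FP d) := (FP_gdelta d).baireSpace_of_t2Space_locallyCompactSpace

instance (d : ℕ) : StandardBorelSpace (FP d) := (FP_meas d).standardBorel

/-- the solution for every free Borel action -/
theorem baire_all {d : ℕ} (hd : 2 ≤ d) {X : Type} [MeasurableSpace X] [StandardBorelSpace X]
    [TopologicalSpace X] [SecondCountableTopology X] [BaireSpace X] [BorelSpace X]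
    (a : FreeAct d X) : BaireSolA a (lclS (5 ^ d + 1)) :=
  baire_of_plane hd a fun _ _ hij => SF.baire_plane a hij

/-- the solution for the shift -/
theorem baire_shift {d : ℕ} (hd : 2 ≤ d) : BaireSol d (lclS (5 ^ d + 1)) :=
  baire_all hd (fshift d)

end SFL
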