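import Pool.Agent.Helper33.SFL.LiftN
import Pool.Agent.Helper33.SFL.LiftE

/-!
# SFL: the theorem
-/

set_option autoImplicit false

namespace SFL

open EB BM MeasureTheory

theorem finite_Lab : Finite SF.Lab := by
  refine Finite.of_injective (fun l : SF.Lab => (l.tau, l.b, l.g, l.g', l.ph, l.ck)) ?_
  rintro ⟨a1, a2, a3, a4, a5, a6⟩ ⟨b1, b2, b3, b4, b5, b6⟩ h
  simp only [Prod.mk.injEq] at h
  obtain ⟨rfl, rfl, rfl, rfl, rfl, rfl⟩ := h
  rfl

theorem finite_LabS (K : ℕ) : Finite (LabS K) := by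
  have := finite_Lab
  infer_instance

theorem main (d : ℕ) (hd : 2 ≤ d) :
    (∀ (X : Type) [MeasurableSpace X] [StandardBorelSpace X] [TopologicalSpace X]
      [SecondCountableTopology X] [BaireSpace X] [BorelSpace X] (a : FreeAct d X),
      BaireSolA a (lclS (5 ^ d + 1))) ∧
    BaireSol d (lclS (5 ^ d + 1)) ∧ ¬ BernSol d (lclS (5 ^ d + 1)) ∧
    ¬ MeasSol d (lclS (5 ^ d + 1)) ∧ ¬ BorelSol (fshift d) (lclS (5 ^ d + 1)) ∧
    ∀ (μ : Measure (Om d)) [IsProbabilityMeasure μ], Erg2 μ → ¬ SolFor d μ (lclS (5 ^ d + 1)) := by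
  have h1 : ¬ BernSol d (lclS (5 ^ d + 1)) := no_solS (bern d) (erg2_bern d)
  have h2 : ¬ MeasSol d (lclS (5 ^ d + 1)) := fun h => h1 (bern_of_meas _ h)
  exact ⟨fun X _ _ _ _ _ _ a => baire_all hd a, baire_shift hd, h1, h2,
    fun h => h2 (meas_of_borel _ h), fun μ _ h => no_solS μ h⟩

end SFL
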