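import Pool.Agent.Helper13.SF.Rule
import Pool.Agent.Helper20.BM.Dec

/-!
# SFL: the LCL problem on `Z^d`

Labels: a colour, four pointers (the colours of the neighbours in the directions `(1, 0)`, `(-1, 0)`, `(0, 1)`, `(0, -1)` of a plane), and a
label of the planar problem of `Helper13/SF/Rule.lean`.
-/

set_option autoImplicit false

namespace SFL

open EB BM

/-- labels -/
abbrev LabS (K : ℕ) : Type := Fin K × (Bool → Bool → Fin K) × SF.Lab

/-- sign -/
def sn (s : Bool) : ℤ := if s then 1 else -1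

/-- the direction `(b, s)` -/
def dc (b s : Bool) : ℤ × ℤ := if b then (0, sn s) else (sn s, 0)

/-- `φ` is a chart of the ball of radius `4` around the root; the rule depends only on the cells `(x, y)` with `|x| + |y| ≤ 3`. -/
structure Chart {K : ℕ} (G : RG (LabS K)) (φ : ℤ × ℤ → G.V) : Prop where
  root : φ 0 = G.root
  adj : ∀ v b s, |v.1| + |v.2| ≤ 3 → G.graph.Adj (φ v) (φ (v + dc b s))
  ptr : ∀ v b s, |v.1| + |v.2| ≤ 3 → (G.lab (φ (v + dc b s))).1 = (G.lab (φ v)).2.1 b s
  opp : ∀ b, Opp G (φ (dc b true)) (φ (dc b false))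
  rule : SF.Rule (fun u => (G.lab (φ u)).2.2) 0

theorem Chart.iso {K : ℕ} {G H : RG (LabS K)} {φ : ℤ × ℤ → G.V} (h : Chart G φ)
    (e : G.graph ≃g H.graph) (he : e G.root = H.root) (hl : ∀ v, H.lab (e v) = G.lab v) :
    Chart H fun v => e (φ v) where
  root := by rw [h.root, he]
  adj v b s hv := e.map_adj_iff.2 (h.adj v b s hv)
  ptr v b s hv := by
    rw [hl, hl]
    exact h.ptr v b s hv
  opp b := by
    obtain ⟨h1, h2⟩ := h.opp b
    refine ⟨fun h3 => h1 (e.injective h3), fun z hz1 hz2 => ?_⟩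
    have h4 := h2 (e.symm z)
      (by
        rw [← e.map_adj_iff, RelIso.apply_symm_apply]
        exact hz1)
      (by
        rw [← e.map_adj_iff, RelIso.apply_symm_apply]
        exact hz2)
    rw [← he, ← h4, RelIso.apply_symm_apply]
  rule := by
    have h1 : (fun u => (H.lab (e (φ u))).2.2) = fun u => (G.lab (φ u)).2.2 := by
      funext u
      rw [hl]
    rw [h1]
    exact h.rule

/-- The LCL problem (radius `4`). -/
def lclS (K : ℕ) : LCL (LabS K) where
  r := 4
  P G := (∀ u w, G.graph.Adj G.root u → G.graph.Adj G.root w → (G.lab u).1 = (G.lab w).1 → u = w) ∧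
    (∀ b s b' s', (G.lab G.root).2.1 b s = (G.lab G.root).2.1 b' s' → b = b' ∧ s = s') ∧
    ∃ φ, Chart G φ
  iso := by
    rintro A B ⟨e, he, hl⟩ ⟨h1, h2, φ, h3⟩
    have hs : ∀ b, A.lab (e.symm b) = B.lab b := fun b => by
      rw [← hl (e.symm b), RelIso.apply_symm_apply]
    have hr : e.symm B.root = A.root := by
      rw [← he, RelIso.symm_apply_apply]
    have hlr : A.lab A.root = B.lab B.root := by rw [← hr, hs]
    have har : ∀ b, B.graph.Adj B.root b → A.graph.Adj A.root (e.symm b) := fun b h => by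
      rw [← hr]
      exact e.symm.map_adj_iff.2 h
    refine ⟨fun u w hu hw huw => ?_, fun b s b' s' h => ?_, _, h3.iso e he hl⟩
    · have := h1 (e.symm u) (e.symm w) (har u hu) (har w hw) (by rw [hs, hs]; exact huw)
      exact e.symm.injective this
    · rw [← hlr] at h
      exact h2 b s b' s' h

/-- the cell `v` of the plane spanned by `e`, `f` -/
def pt {d : ℕ} (e f : Gd d) (v : ℤ × ℤ) : Gd d := v.1 • e + v.2 • f

/-- `(e, f)` are the directions of the plane at `g` -/
structure Dr {d K : ℕ} (y : Gd d → LabS K) (g e f : Gd d) : Prop where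
  ue : Un e
  uf : Un f
  p1 : (y (e + g)).1 = (y g).2.1 false true
  p2 : (y (f + g)).1 = (y g).2.1 true true

end SFL
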