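import Pool.Agent.Helper33.SFL.LiftN
import Pool.Agent.Helper33.SFL.SolA

/-!
# SFL: no solution for an invariant measure of any free action for which each `2 e_i` is ergodic
-/

set_option autoImplicit false

namespace SFL

open EB BM NI MeasureTheory


section

variable {d : ℕ} {X : Type} [MeasurableSpace X] (a : FreeAct d X) {μ : Measure X}
  (hi : ∀ g, MeasurePreserving (a.T g) μ μ) (he : ∀ i : Fin d, Ergodic (a.T ((2 : ℤ) • un i)) μ)

include hi

theorem ergA_neg {g : Gd d} (h : Ergodic (a.T g) μ) : Ergodic (a.T (-g)) μ := by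
  refine ⟨hi (-g), ⟨fun s hs hinv => ?_⟩⟩
  refine h.toPreErgodic.aeconst_set hs ?_
  ext x
  have h1 : a.T (-g) (a.T g x) ∈ s ↔ a.T g x ∈ s := by
    have : (a.T g x ∈ a.T (-g) ⁻¹' s) = (a.T g x ∈ s) := by rw [hinv]
    exact iff_of_eq this
  rw [← a.add, neg_add_cancel, a.zero] at h1
  exact h1.symm

include he

theorem ergA_two {e : Gd d} (hu : Un e) : Ergodic (a.T ((2 : ℤ) • e)) μ := by
  obtain ⟨i, rfl | rfl⟩ := hu
  · exact he i
  · rw [smul_neg]
    exact ergA_neg a hi (he i)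

theorem ergA_one [IsProbabilityMeasure μ] {e : Gd d} (hu : Un e) {E : Set X}
    (hE : MeasurableSet E) (h1 : ∀ᵐ x ∂μ, x ∈ E → a.T e x ∈ E) :
    (∀ᵐ x ∂μ, x ∈ E) ∨ ∀ᵐ x ∂μ, x ∉ E := by
  have h2 : ∀ᵐ x ∂μ, x ∈ E → a.T ((2 : ℤ) • e) x ∈ E := by
    filter_upwards [h1, (hi e).quasiMeasurePreserving.ae h1] with x h3 h4 h5
    have h6 := h4 (h3 h5)
    rw [← a.add] at h6
    rwa [two_smul]
  rcases (ergA_two a hi he hu).ae_empty_or_univ_of_ae_le_preimage hE.nullMeasurableSet h2 with h3 | h3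
  · right
    filter_upwards [h3] with x hx hx2
    have h4 : (x ∈ E) = (x ∈ (∅ : Set X)) := hx
    rw [h4] at hx2
    exact hx2
  · left
    filter_upwards [h3] with x hx
    have h4 : (x ∈ E) = (x ∈ (Set.univ : Set X)) := hx
    rw [h4]
    trivial

end

theorem ext_solA {d : ℕ} {X S : Type} [MeasurableSpace X] (a : FreeAct d X) (s0 : S) (L : LCL S)
    (C : Set X) (hCm : MeasurableSet C) (hCi : Inv a C) (hS : BorelSolOn a L C) :
    ∃ φ : X → S, Ms φ ∧ ∀ x ∈ C, Allowed d L fun b => φ (a.T b.1 x) := by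
  classical
  obtain ⟨f, hf, hsol⟩ := hS
  rw [sol_iff a L C hCi f] at hsol
  obtain ⟨φ, hφ⟩ : ∃ φ : X → S, φ = fun x => if h : x ∈ C then f ⟨x, h⟩ else s0 := ⟨_, rfl⟩
  have hφ1 : ∀ y : C, φ y.1 = f y := by
    intro y
    rw [hφ]
    exact dif_pos y.2
  have hφ0 : ∀ x, x ∉ C → φ x = s0 := by
    intro x hx
    rw [hφ]
    exact dif_neg hx
  refine ⟨φ, ?_, ?_⟩
  · intro s
    have h1 : {x | φ x = s} = (Subtype.val '' {y : C | f y = s}) ∪ (Cᶜ ∩ {_x : X | s0 = s}) := by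
      ext x
      simp only [Set.mem_union, Set.mem_inter_iff, Set.mem_compl_iff, Set.mem_ofPred_eq]
      constructor
      · intro hx
        by_cases h : x ∈ C
        · left
          exact ⟨⟨x, h⟩, (hφ1 ⟨x, h⟩).symm.trans hx, rfl⟩
        · right
          exact ⟨h, (hφ0 x h).symm.trans hx⟩
      · rintro (⟨y, hy, rfl⟩ | ⟨h, h0⟩)
        · exact (hφ1 y).trans hy
        · rw [hφ0 x h]
          exact h0
    rw [h1]
    exact (hCm.subtype_image (hf s)).union (hCm.compl.inter (MeasurableSet.const _))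
  · intro x hx
    have h1 := hsol ⟨x, hx⟩
    have h2 : (fun b : ball (grid d) L.r 0 => φ (a.T b.1 x)) =
        fun b : ball (grid d) L.r 0 => f ⟨a.T b.1 x, hCi b.1 x hx⟩ := by
      funext b
      exact hφ1 ⟨a.T b.1 x, hCi b.1 x hx⟩
    rw [h2]
    exact h1

theorem dr_measA {d K : ℕ} {X : Type} [MeasurableSpace X] (a : FreeAct d X) {F : X → LabS K}
    (hF : Ms F) (e f : Gd d) : MeasurableSet {x | Dr (fun g => F (a.T g x)) 0 e f} := by
  have h1 : ∀ g : Gd d, Ms fun x => F (a.T g x) := fun g => hF.precomp (a.meas g)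
  have h2 : ∀ (g : Gd d) (b : Bool), MeasurableSet
      {x | (F (a.T (g + 0) x)).1 = (F (a.T 0 x)).2.1 b true} := by
    intro g b
    have := ((h1 (g + 0)).pair (h1 0)).set {p | p.1.1 = p.2.2.1 b true}
    exact this
  have h3 : {x | Dr (fun g => F (a.T g x)) 0 e f} = {_x : X | Un e ∧ Un f} ∩
      ({x | (F (a.T (e + 0) x)).1 = (F (a.T 0 x)).2.1 false true} ∩
        {x | (F (a.T (f + 0) x)).1 = (F (a.T 0 x)).2.1 true true}) := by
    ext x
    constructor
    · rintro ⟨a, b, c, d⟩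
      exact ⟨⟨a, b⟩, c, d⟩
    · rintro ⟨⟨a, b⟩, c, d⟩
      exact ⟨a, b, c, d⟩
  rw [h3]
  exact (MeasurableSet.const _).inter ((h2 e false).inter (h2 f true))

theorem no_solA {d K : ℕ} {X : Type} [MeasurableSpace X] (a : FreeAct d X) (μ : Measure X)
    [IsProbabilityMeasure μ] (hi : ∀ g, MeasurePreserving (a.T g) μ μ)
    (he : ∀ i : Fin d, Ergodic (a.T ((2 : ℤ) • un i)) μ) : ¬ MeasSolA a μ (lclS K) := by
  rintro ⟨C, hC, hCi, hC0, hS⟩
  have hae : ∀ᵐ x ∂μ, x ∈ C := mem_ae_iff.2 hC0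
  obtain ⟨s0, -⟩ : ∃ _s : LabS K, True := by
    obtain ⟨x, hx⟩ := hae.exists
    obtain ⟨f, -⟩ := hS
    exact ⟨f ⟨x, hx⟩, trivial⟩
  obtain ⟨F, hF, hA⟩ := ext_solA a s0 (lclS K) C hC hCi hS
  have hy : ∀ᵐ x ∂μ, ∀ g : Gd d, Allowed d (lclS K) fun b => (fun g => F (a.T g x)) (b.1 + g) := by
    filter_upwards [hae] with x hx g
    have h1 := hA (a.T g x) (hCi g x hx)
    have h2 : (fun b : ball (grid d) (lclS K).r 0 => F (a.T b.1 (a.T g x))) =
        fun b : ball (grid d) (lclS K).r 0 => F (a.T (b.1 + g) x) := by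
      funext b
      rw [a.add]
    rw [h2] at h1
    exact h1
  obtain ⟨e, f, hef⟩ : ∃ e f : Gd d, ¬ ∀ᵐ x ∂μ, x ∉ {x | Dr (fun g => F (a.T g x)) 0 e f} := by
    by_contra hc
    push Not at hc
    have h1 : ∀ᵐ x ∂μ, ∀ e f : Gd d, x ∉ {x | Dr (fun g => F (a.T g x)) 0 e f} :=
      ae_all_iff.2 fun e => ae_all_iff.2 fun f => hc e f
    obtain ⟨x, hx1, hx2⟩ := (h1.and hy).exists
    obtain ⟨e, f, hd⟩ := dr_exists (y := fun g => F (a.T g x)) hx2 0
    exact hx1 e f hd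
  obtain ⟨ue, uf⟩ : Un e ∧ Un f := by
    by_contra hc
    refine hef (Filter.Eventually.of_forall fun x hx => hc ⟨hx.ue, hx.uf⟩)
  have hD : ∀ᵐ x ∂μ, x ∈ {x | Dr (fun g => F (a.T g x)) 0 e f} := by
    refine (ergA_one a hi he ue (dr_measA a hF e f) ?_).resolve_right hef
    filter_upwards [hy] with x hx hd
    have h1 := dr_step (y := fun g => F (a.T g x)) hx hd
    rw [add_zero] at h1
    show Dr (fun g => F (a.T g (a.T e x))) 0 e f
    have h2 : (fun g => F (a.T g (a.T e x))) = fun g => (fun u => F (a.T u x)) (g + e) := by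
      funext g
      show F (a.T g (a.T e x)) = F (a.T (g + e) x)
      rw [a.add]
    rw [h2, dr_add (y := fun u => F (a.T u x)), zero_add]
    exact h1
  let Y : SFM.Sy μ :=
    { T := fun v => a.T (pt e f v)
      zero := fun x => by rw [pt_zero, a.zero]
      add := fun g h x => by rw [pt_add, a.add]
      mp := fun g => hi _
      φ := fun x => (F x).2.2
      hφ := hF.comp fun l => l.2.2 }
  have herg : Ergodic (Y.T (2, 0)) μ := by
    show Ergodic (a.T (pt e f (2, 0))) μ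
    have e1 : pt e f (2, 0) = (2 : ℤ) • e := by simp [pt]
    rw [e1]
    exact ergA_two a hi he ue
  refine SFM.no_measure μ Y herg ?_
  filter_upwards [hy, hD] with x hx hd v
  have h1 := dr_rule (y := fun g => F (a.T g x)) hx hd v
  have h2 : (fun u : ℤ × ℤ => ((fun g => F (a.T g x)) (pt e f u + 0)).2.2) = Y.FF x := by
    funext u
    show (F (a.T (pt e f u + 0) x)).2.2 = (F (a.T (pt e f u) x)).2.2
    rw [add_zero]
  rw [h2] at h1
  exact h1

end SFL
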