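import Pool.Agent.Helper33.SFL.DecN
import Pool.Agent.Helper20.BM.Fin
import Pool.Agent.Helper72.SFM.Fin

/-!
# SFL: no solution for a measure for which each `2 e_i` is ergodic
-/

set_option autoImplicit false

namespace SFL

open EB BM NI MeasureTheory

theorem ergodic_neg {d : ℕ} {μ : Measure (Om d)} {g : Gd d} (hi : ∀ g, MeasurePreserving (sh g) μ μ)
    (h : Ergodic (sh g) μ) : Ergodic (sh (-g)) μ := by
  refine ⟨hi (-g), ⟨fun s hs hinv => ?_⟩⟩
  refine h.toPreErgodic.aeconst_set hs ?_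
  ext x
  have h1 : sh (-g) (sh g x) ∈ s ↔ sh g x ∈ s := by
    have : (sh g x ∈ sh (-g) ⁻¹' s) = (sh g x ∈ s) := by rw [hinv]
    exact iff_of_eq this
  rw [← sh_add, neg_add_cancel, sh_zero] at h1
  exact h1.symm

theorem dr_add {d K : ℕ} {y : Gd d → LabS K} {c g e f : Gd d} :
    Dr (fun u => y (u + c)) g e f ↔ Dr y (g + c) e f := by
  constructor
  · rintro ⟨h1, h2, h3, h4⟩
    refine ⟨h1, h2, ?_, ?_⟩
    · rw [← add_assoc]
      exact h3
    · rw [← add_assoc]
      exact h4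
  · rintro ⟨h1, h2, h3, h4⟩
    rw [← add_assoc] at h3 h4
    exact ⟨h1, h2, h3, h4⟩

theorem dr_meas {d K : ℕ} {F : Om d → LabS K} (hF : Ms F) (e f : Gd d) :
    MeasurableSet {x | Dr (fun g => F (sh g x)) 0 e f} := by
  have h1 : ∀ g : Gd d, Ms fun x => F (sh g x) := fun g => hF.precomp (sh_meas g)
  have h2 : ∀ (g : Gd d) (b : Bool), MeasurableSet
      {x | (F (sh (g + 0) x)).1 = (F (sh 0 x)).2.1 b true} := by
    intro g b
    have := ((h1 (g + 0)).pair (h1 0)).set {p | p.1.1 = p.2.2.1 b true}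
    exact this
  have h3 : {x | Dr (fun g => F (sh g x)) 0 e f} = {_x : Om d | Un e ∧ Un f} ∩
      ({x | (F (sh (e + 0) x)).1 = (F (sh 0 x)).2.1 false true} ∩
        {x | (F (sh (f + 0) x)).1 = (F (sh 0 x)).2.1 true true}) := by
    ext x
    constructor
    · rintro ⟨a, b, c, d⟩
      exact ⟨⟨a, b⟩, c, d⟩
    · rintro ⟨⟨a, b⟩, c, d⟩
      exact ⟨a, b, c, d⟩
  rw [h3]
  exact (MeasurableSet.const _).inter ((h2 e false).inter (h2 f true))

theorem no_solS {d K : ℕ} (μ : Measure (Om d)) [IsProbabilityMeasure μ] (h : Erg2 μ) :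
    ¬ SolFor d μ (lclS K) := by
  rintro ⟨C, hC, hCi, hC0, hS⟩
  have hae : ∀ᵐ x ∂μ, x ∈ Subtype.val '' C := mem_ae_iff.2 hC0
  obtain ⟨s0, -⟩ : ∃ _s : LabS K, True := by
    obtain ⟨x, hx⟩ := hae.exists
    obtain ⟨y, hy, -⟩ := hx
    obtain ⟨f, -⟩ := hS
    exact ⟨f ⟨y, hy⟩, trivial⟩
  obtain ⟨F, hF, hA⟩ := ext_sol s0 (lclS K) C hC hCi hS
  have hy : ∀ᵐ x ∂μ, ∀ g : Gd d, Allowed d (lclS K) fun b => (fun g => F (sh g x)) (b.1 + g) := by
    filter_upwards [hae] with x hx g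
    obtain ⟨y, hy, rfl⟩ := hx
    have h1 := hA (sh g y.1) ⟨(fshift d).T g y, hCi g y hy, rfl⟩
    have h2 : (fun b : ball (grid d) (lclS K).r 0 => F (sh b.1 (sh g y.1))) =
        fun b : ball (grid d) (lclS K).r 0 => F (sh (b.1 + g) y.1) := by
      funext b
      rw [sh_add]
    rw [h2] at h1
    exact h1
  obtain ⟨e, f, hef⟩ : ∃ e f : Gd d, ¬ ∀ᵐ x ∂μ, x ∉ {x | Dr (fun g => F (sh g x)) 0 e f} := by
    by_contra hc
    push Not at hc
    have h1 : ∀ᵐ x ∂μ, ∀ e f : Gd d, x ∉ {x | Dr (fun g => F (sh g x)) 0 e f} :=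
      ae_all_iff.2 fun e => ae_all_iff.2 fun f => hc e f
    refine ae_false (μ := μ) ?_
    filter_upwards [h1, hy] with x hx1 hx2
    obtain ⟨e, f, hd⟩ := dr_exists (y := fun g => F (sh g x)) hx2 0
    exact hx1 e f hd
  obtain ⟨ue, uf⟩ : Un e ∧ Un f := by
    by_contra hc
    refine hef (Filter.Eventually.of_forall fun x hx => hc ⟨hx.ue, hx.uf⟩)
  have hD : ∀ᵐ x ∂μ, x ∈ {x | Dr (fun g => F (sh g x)) 0 e f} := by
    refine (h.one ue (dr_meas hF e f) ?_).resolve_right hef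
    filter_upwards [hy] with x hx hd
    have h1 := dr_step (y := fun g => F (sh g x)) hx hd
    rw [add_zero] at h1
    show Dr (fun g => F (sh g (sh e x))) 0 e f
    have h2 : (fun g => F (sh g (sh e x))) = fun g => (fun u => F (sh u x)) (g + e) := by
      funext g
      show F (sh g (sh e x)) = F (sh (g + e) x)
      rw [sh_add]
    rw [h2, dr_add (y := fun u => F (sh u x)), zero_add]
    exact h1
  let Y : SFM.Sy μ :=
    { T := fun v => sh (pt e f v)
      zero := fun x => by rw [pt_zero, sh_zero]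
      add := fun g h x => by rw [pt_add, sh_add]
      mp := fun g => h.inv _
      φ := fun x => (F x).2.2
      hφ := hF.comp fun l => l.2.2 }
  have herg : Ergodic (Y.T (2, 0)) μ := by
    show Ergodic (sh (pt e f (2, 0))) μ
    have e1 : pt e f (2, 0) = (2 : ℤ) • e := by simp [pt]
    rw [e1]
    obtain ⟨i, rfl | rfl⟩ := ue
    · exact h.erg i
    · rw [smul_neg]
      exact ergodic_neg h.inv (h.erg i)
  refine SFM.no_measure μ Y herg ?_
  filter_upwards [hy, hD] with x hx hd v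
  have h1 := dr_rule (y := fun g => F (sh g x)) hx hd v
  have h2 : (fun u : ℤ × ℤ => ((fun g => F (sh g x)) (pt e f u + 0)).2.2) = Y.FF x := by
    funext u
    show (F (sh (pt e f u + 0) x)).2.2 = (F (sh (pt e f u) x)).2.2
    rw [add_zero]
  rw [h2] at h1
  exact h1

end SFL
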